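import Pool.Agent.K3h48.HM.Stm

/-!
# `PSL₂(ℝ)` is locally compact and Hausdorff (brick TOP of helper48, written by helper99)
-/

set_option autoImplicit false

open Topology

namespace Pool.Agent.K3h99.HM

open Pool.Agent.K3h48.HM

theorem t_TOP : S_TOP := by
  have hemb : IsClosedEmbedding
      ((↑) : Matrix.SpecialLinearGroup (Fin 2) ℝ → Matrix (Fin 2) (Fin 2) ℝ) :=
    Matrix.SpecialLinearGroup.isClosedEmbedding_val
  have hM : LocallyCompactSpace (Matrix (Fin 2) (Fin 2) ℝ) :=
    inferInstanceAs (LocallyCompactSpace (Fin 2 → Fin 2 → ℝ))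
  have hM2 : T2Space (Matrix (Fin 2) (Fin 2) ℝ) :=
    inferInstanceAs (T2Space (Fin 2 → Fin 2 → ℝ))
  have hlc : LocallyCompactSpace (Matrix.SpecialLinearGroup (Fin 2) ℝ) :=
    hemb.locallyCompactSpace
  have ht2 : T2Space (Matrix.SpecialLinearGroup (Fin 2) ℝ) := hemb.isEmbedding.t2Space
  have hcl : IsClosed ((Subgroup.center (Matrix.SpecialLinearGroup (Fin 2) ℝ) :
      Subgroup (Matrix.SpecialLinearGroup (Fin 2) ℝ)) :
        Set (Matrix.SpecialLinearGroup (Fin 2) ℝ)) := by
    rw [Subgroup.coe_center, ← Set.centralizer_univ]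
    exact Set.isClosed_centralizer _
  have h3 : T3Space PSL := QuotientGroup.instT3Space _
  exact ⟨QuotientGroup.instLocallyCompactSpace _, inferInstance⟩

end Pool.Agent.K3h99.HM
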